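import Mathlib
import Pool.Agent.H78.Sph.Rigid10
import Pool.Graph.R_seed8.Helper477.Sph.Rig4
import Pool.Graph.R_seed8.Helper477.Sph.Lens5

set_option autoImplicit false
set_option maxRecDepth 100000

namespace Pool.Agent.Results.MP_c53f59_gt.LargestVolume

/-- `Γ` acts freely on the unit sphere of `ℝ^N`: no element other than the identity fixes a unit
vector. -/
def ActsFreely {N : ℕ} (Γ : Subgroup (Matrix.orthogonalGroup (Fin N) ℝ)) : Prop :=
  ∀ g ∈ Γ, g ≠ 1 → ∀ v : Fin N → ℝ, v ⬝ᵥ v = 1 → g.1.mulVec v ≠ v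

/-- The dimension of the space of `Γ`-invariant harmonic homogeneous polynomials of degree `k` on
`ℝ^N`, i.e. the multiplicity of the eigenvalue `k (k + N - 2)` of the Laplacian on the quotient of
the unit sphere by `Γ`. -/
noncomputable def multiplicity {N : ℕ} (Γ : Subgroup (Matrix.orthogonalGroup (Fin N) ℝ))
    (k : ℕ) : ℕ :=
  Module.finrank ℝ ↥(MvPolynomial.homogeneousSubmodule (Fin N) ℝ k ⊓
    LinearMap.ker (∑ i : Fin N,
      (MvPolynomial.pderiv i).toLinearMap ∘ₗ (MvPolynomial.pderiv i).toLinearMap) ⊓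
    ⨅ g ∈ Γ, LinearMap.ker ((MvPolynomial.aeval (fun i : Fin N =>
      ∑ j : Fin N, MvPolynomial.C (g.1 i j) * MvPolynomial.X j)).toLinearMap
        - LinearMap.id))

/-- The two quotients of the sphere have the same Laplace spectrum with multiplicities. -/
def Isospectral {N : ℕ} (Γ₁ Γ₂ : Subgroup (Matrix.orthogonalGroup (Fin N) ℝ)) : Prop :=
  ∀ k : ℕ, multiplicity Γ₁ k = multiplicity Γ₂ k

/-- The two quotients of the sphere are isometric: the groups are conjugate in `O(N)`. -/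
def Isometric {N : ℕ} (Γ₁ Γ₂ : Subgroup (Matrix.orthogonalGroup (Fin N) ℝ)) : Prop :=
  ∃ h : Matrix.orthogonalGroup (Fin N) ℝ, ∀ g, g ∈ Γ₁ ↔ h * g * h⁻¹ ∈ Γ₂

/-- An isospectral non-isometric pair of `(2n-1)`-dimensional spherical space forms. -/
structure IsPair (n : ℕ) (Γ₁ Γ₂ : Subgroup (Matrix.orthogonalGroup (Fin (2 * n)) ℝ)) : Prop where
  finite₁ : Finite Γ₁
  finite₂ : Finite Γ₂
  free₁ : ActsFreely Γ₁
  free₂ : ActsFreely Γ₂
  isospectral : Isospectral Γ₁ Γ₂
  not_isometric : ¬ Isometric Γ₁ Γ₂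

/-- The orders `|Γ₁|` of the isospectral non-isometric pairs of `(2n-1)`-dimensional spherical
space forms; the volumes of these space forms are `vol(S^{2n-1})/c` for `c` in this set. -/
def orders (n : ℕ) : Set ℕ :=
  {c | ∃ Γ₁ Γ₂ : Subgroup (Matrix.orthogonalGroup (Fin (2 * n)) ℝ),
    IsPair n Γ₁ Γ₂ ∧ Nat.card Γ₁ = c}

open Pool.Agent.Helper477 Pool.Agent.Helper477.Sph Pool.Agent.Helper477.HarmInv

theorem free_iff {N : ℕ} (Γ : Subgroup (Matrix.orthogonalGroup (Fin N) ℝ)) :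
    ActsFreely Γ ↔ FreeOn Γ := by
  constructor
  · intro h g hg hg1 v hv
    by_contra hv0
    have h1 : 0 < v ⬝ᵥ v := by
      rcases (dot_self_nonneg v).lt_or_eq with h2 | h2
      · exact h2
      · exact absurd (dotProduct_self_eq_zero.mp h2.symm) hv0
    set c := (Real.sqrt (v ⬝ᵥ v))⁻¹ with hc
    refine h g hg hg1 (c • v) ?_ ?_
    · rw [smul_dotProduct, dotProduct_smul, smul_eq_mul, smul_eq_mul, ← mul_assoc, hc, ← mul_inv,
        Real.mul_self_sqrt h1.le, inv_mul_cancel₀ h1.ne']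
    · rw [Matrix.mulVec_smul, hv]
  · intro h g hg hg1 v hv hgv
    rw [h g hg hg1 v hgv] at hv
    simp at hv

theorem iso_iff {N : ℕ} (hN : 0 < N) (Γ₁ Γ₂ : Subgroup (Matrix.orthogonalGroup (Fin N) ℝ)) :
    Isospectral Γ₁ Γ₂ ↔ hilb Γ₁ = hilb Γ₂ := by
  have hm : ∀ (Γ : Subgroup (Matrix.orthogonalGroup (Fin N) ℝ)) (k : ℕ), multiplicity Γ k =
      Module.finrank ℝ ↥(MvPolynomial.homogeneousSubmodule (Fin N) ℝ k ⊓ LinearMap.ker (D N) ⊓
        Inv Γ) := fun Γ k => rfl
  constructor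
  · intro h
    have key : ∀ k, Module.finrank ℝ ↥(MvPolynomial.homogeneousSubmodule (Fin N) ℝ k ⊓ Inv Γ₁) =
        Module.finrank ℝ ↥(MvPolynomial.homogeneousSubmodule (Fin N) ℝ k ⊓ Inv Γ₂) := by
      intro k
      induction k using Nat.strong_induction_on with
      | _ k ih =>
        have hk := h k
        rw [hm, hm] at hk
        by_cases hk2 : k < 2
        · rwa [finrank_harmonic_low _ k hk2, finrank_harmonic_low _ k hk2] at hk
        · obtain ⟨m, rfl⟩ : ∃ m, k = m + 2 := ⟨k - 2, by omega⟩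
          have h1 := finrank_harmonic hN (Inv Γ₁) (D_mem_Inv Γ₁) (rsq_mul_mem_Inv Γ₁) m
          have h2 := finrank_harmonic hN (Inv Γ₂) (D_mem_Inv Γ₂) (rsq_mul_mem_Inv Γ₂) m
          have h3 := ih m (by omega)
          omega
    unfold hilb
    congr 1
    funext k
    rw [key k]
  · intro h k
    rw [hm, hm]
    refine isospectral_of_invariants hN Γ₁ Γ₂ (fun k => ?_) k
    have h1 := congrArg (PowerSeries.coeff k) h
    unfold hilb at h1
    rw [PowerSeries.coeff_mk, PowerSeries.coeff_mk] at h1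
    exact_mod_cast h1

theorem cert11a : Cert 11 1 [1, 2, 3, 4, 5] [4, 5] [3, 5] where
  hU := by decide +kernel
  hU0 := by decide
  hinv := by decide +kernel
  hlen := rfl
  horb := by decide +kernel
  hne := by decide +kernel
  hL := by decide +kernel
  hL' := by decide +kernel

theorem cert11b : Cert 11 2 [1, 2, 3, 4, 5] [3, 5, 5] [4, 4, 5] where
  hU := by decide +kernel
  hU0 := by decide
  hinv := by decide +kernel
  hlen := rfl
  horb := by decide +kernel
  hne := by decide +kernel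
  hL := by decide +kernel
  hL' := by decide +kernel

theorem cert11c : Cert 11 3 [1, 2, 3, 4, 5] [3, 5, 5, 5] [4, 4, 4, 5] where
  hU := by decide +kernel
  hU0 := by decide
  hinv := by decide +kernel
  hlen := rfl
  horb := by decide +kernel
  hne := by decide +kernel
  hL := by decide +kernel
  hL' := by decide +kernel

/-- No pair of order at most ten. -/
theorem lower {n : ℕ} (hn : 0 < n) : ∀ c ∈ orders n, 11 ≤ c := by
  by_contra hcon
  push Not at hcon
  obtain ⟨c₀, hc₀, hlt⟩ := hcon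
  classical
  have hex : ∃ c, c ∈ orders n := ⟨c₀, hc₀⟩
  have hm := Nat.find_spec hex
  have hmin : ∀ c ∈ orders n, Nat.find hex ≤ c := fun c hc => Nat.find_min' hex hc
  obtain ⟨Γ₁, Γ₂, hP, hcard⟩ := hm
  have hle : Nat.card Γ₁ ≤ 10 := by
    have := hmin c₀ hc₀
    omega
  have hN : 0 < 2 * n := by omega
  have := hP.finite₁
  have := hP.finite₂
  have f₁ := (free_iff _).mp hP.free₁
  have f₂ := (free_iff _).mp hP.free₂
  have hh := (iso_iff hN _ _).mp hP.isospectral
  apply hP.not_isometric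
  by_cases hnc : IsCyclic Γ₁ ∧ IsCyclic Γ₂
  · exact Pool.Agent.H78.Sph.rigid_cyclic f₁ f₂ hN hh hnc.1 hnc.2 hle
  · refine rigid f₁ f₂ hN hh (by omega) ?_ hnc
    intro C₁ C₂ hC₁ hC₂ hCf₁ hCf₂ hCh hlt'
    by_contra hcj
    have hC : IsPair n C₁ C₂ := ⟨hC₁, hC₂, (free_iff _).mpr hCf₁, (free_iff _).mpr hCf₂,
      (iso_iff hN _ _).mpr hCh, hcj⟩
    have := hmin _ ⟨C₁, C₂, hC, rfl⟩
    omega

theorem of_cert {n κ : ℕ} {L L' : List ℕ} (c : Cert 11 κ [1, 2, 3, 4, 5] L L')
    (hn : n + L.length = κ * 5) (hn0 : 0 < n) : 11 ∈ orders n := by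
  obtain ⟨Γ, Γ', h1, h2, h3, h4, h5, h6, h7, h8⟩ := lens_pair c hn hn0
  exact ⟨Γ, Γ', ⟨h1, h2, (free_iff _).mpr h3, (free_iff _).mpr h4,
    (iso_iff (by omega) _ _).mpr h7, h8⟩, h5⟩

/-- In every dimension `2n-1` the volume of a member of an isospectral non-isometric pair of
spherical space forms is at most `vol(S^{2n-1})/11`, and for all `n ≥ 3` with `n ≡ 1, 2, 3 mod 5`,
`n ≠ 6`, this value is attained. -/
theorem result : (∀ n : ℕ, 1 ≤ n → ∀ c ∈ orders n, 11 ≤ c) ∧
    ∀ n : ℕ, 3 ≤ n → n ≠ 6 → (n % 5 = 1 ∨ n % 5 = 2 ∨ n % 5 = 3) → IsLeast (orders n) 11 := by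
  refine ⟨fun n hn => lower hn, fun n hn h6 hmod => ⟨?_, fun c hc => lower (by omega) c hc⟩⟩
  rcases hmod with h | h | h
  · exact of_cert (cert11c.mono (show 3 ≤ (n + 4) / 5 by omega))
      (show n + 4 = (n + 4) / 5 * 5 by omega) (by omega)
  · exact of_cert (cert11b.mono (show 2 ≤ (n + 3) / 5 by omega))
      (show n + 3 = (n + 3) / 5 * 5 by omega) (by omega)
  · exact of_cert (cert11a.mono (show 1 ≤ (n + 2) / 5 by omega))
      (show n + 2 = (n + 2) / 5 * 5 by omega) (by omega)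

end Pool.Agent.Results.MP_c53f59_gt.LargestVolume
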